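import Mathlib

/-!
# Ample numbers coprime to the first `k` primes

Let `a(n)` be the number of recursive divisors of `n`.  For every `k` there are a `δ > 0` and infinitely many
`n` which are divisible by none of the first `k` primes and satisfy `a(n) > n ^ (1 + δ)`.

Proof.  Since the sum of the reciprocals of the primes diverges, there is a finite set `F` of primes, none of
them among the first `k`, with `∏ (1 - 1/p)⁻¹ > 2` over `p ∈ F`.  By continuity
`Z = ∏ (1 - p ^ (-σ))⁻¹ > 2` for some `σ = 1 + 2δ > 1`.  Here `Z` is the sum of `n ^ (-σ)` over the numbers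
`n` composed of the primes of `F`.  From `2 a(n) = 1 + ∑ a(m)`, the sum over the divisors `m` of `n`, the sum `A`
of `a(n) n ^ (-σ)` over the same numbers satisfies `2 A = Z + Z A`, which is impossible if `A` is finite.  But if
`a(n) ≤ n ^ (1 + δ)` for all but finitely many of these `n`, then `A` is finite, as the sum of `n ^ (-δ)` is.
-/

set_option autoImplicit false

open Finset

namespace Pool.Agent.Results.MP_bbacab_nt.AmpleCoprime

/-- The number of recursive divisors: `a(n) = 1 + ∑ a(m)`, the sum over the divisors `m` of `n` with `m < n`;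
in particular `a(1) = 1`. -/
def recDiv (n : ℕ) : ℕ := 1 + ∑ m ∈ n.properDivisors.attach, recDiv m.1
termination_by n
decreasing_by exact (Nat.mem_properDivisors.1 m.2).2

theorem recDiv_eq (n : ℕ) : recDiv n = 1 + ∑ m ∈ n.properDivisors, recDiv m := by
  rw [recDiv, Finset.sum_attach]

theorem two_mul_recDiv {n : ℕ} (hn : n ≠ 0) : 2 * recDiv n = 1 + ∑ m ∈ n.divisors, recDiv m := by
  rw [← Nat.cons_self_properDivisors hn, Finset.sum_cons]
  have := recDiv_eq n
  omega

open scoped Classical in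
/-- The coefficients of the two series: `a(n)` and `1` on the numbers composed of primes of `F`. -/
noncomputable def fA (F : Finset ℕ) (n : ℕ) : ℂ := if n ∈ Nat.factoredNumbers F then (recDiv n : ℂ) else 0

open scoped Classical in
noncomputable def fZ (F : Finset ℕ) (n : ℕ) : ℂ := if n ∈ Nat.factoredNumbers F then 1 else 0

theorem fA_conv (F : Finset ℕ) {n : ℕ} (hn : n ≠ 0) :
    LSeries.convolution (fA F) (fZ F) n = 2 * fA F n - fZ F n := by
  rw [LSeries.convolution_def]
  show (∑ p ∈ n.divisorsAntidiagonal, fA F p.1 * fZ F p.2) = 2 * fA F n - fZ F n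
  by_cases h : n ∈ Nat.factoredNumbers F
  · have h1 : ∀ p ∈ n.divisorsAntidiagonal, fA F p.1 * fZ F p.2 = (recDiv p.1 : ℂ) := by
      intro p hp
      obtain ⟨hpn, -⟩ := Nat.mem_divisorsAntidiagonal.1 hp
      rw [fA, fZ, if_pos (Nat.mem_factoredNumbers_of_dvd h ⟨p.2, hpn.symm⟩),
        if_pos (Nat.mem_factoredNumbers_of_dvd h ⟨p.1, by rw [mul_comm]; exact hpn.symm⟩), mul_one]
    rw [Finset.sum_congr rfl h1, Nat.sum_divisorsAntidiagonal (fun i _ => (recDiv i : ℂ)), fA, fZ, if_pos h,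
      if_pos h]
    have := two_mul_recDiv hn
    have h2 : (2 * recDiv n : ℂ) = 1 + ∑ m ∈ n.divisors, (recDiv m : ℂ) := by exact_mod_cast this
    rw [h2]
    ring
  · rw [fA, fZ, if_neg h, if_neg h, mul_zero, sub_zero]
    refine Finset.sum_eq_zero fun p hp => ?_
    obtain ⟨hpn, -⟩ := Nat.mem_divisorsAntidiagonal.1 hp
    by_cases h1 : p.1 ∈ Nat.factoredNumbers F
    · by_cases h2 : p.2 ∈ Nat.factoredNumbers F
      · exact absurd (hpn ▸ Nat.mul_mem_factoredNumbers h1 h2) h
      · rw [fZ, if_neg h2, mul_zero]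
    · rw [fA, if_neg h1, zero_mul]

/-- The completely multiplicative function `n ↦ n ^ (-σ)` with values in the reals. -/
noncomputable def powHom (σ : ℝ) : ℕ →* ℝ where
  toFun n := (n : ℝ) ^ (-σ)
  map_one' := by simp
  map_mul' m n := by push_cast; exact Real.mul_rpow (by positivity) (by positivity)

theorem hasSum_factored {F : Finset ℕ} (hF : ∀ p ∈ F, p.Prime) {σ : ℝ} (hσ : 0 < σ) :
    HasSum (fun m : Nat.factoredNumbers F => ((m : ℕ) : ℝ) ^ (-σ)) (∏ p ∈ F, (1 - (p : ℝ) ^ (-σ))⁻¹) := by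
  have h := (EulerProduct.summable_and_hasSum_factoredNumbers_prod_filter_prime_geometric
    (f := powHom σ) (fun {p} hp => ?_) F).2
  · rw [Finset.filter_true_of_mem hF] at h
    exact h
  · change ‖(p : ℝ) ^ (-σ)‖ < 1
    rw [Real.norm_of_nonneg (by positivity)]
    exact Real.rpow_lt_one_of_one_lt_of_neg (by exact_mod_cast hp.one_lt) (by linarith)

theorem term_fZ (F : Finset ℕ) (σ : ℝ) (n : ℕ) : LSeries.term (fZ F) (σ : ℂ) n =
    (((Nat.factoredNumbers F).indicator (fun m : ℕ => (m : ℝ) ^ (-σ)) n : ℝ) : ℂ) := by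
  rcases eq_or_ne n 0 with rfl | hn
  · rw [LSeries.term_zero, Set.indicator_of_notMem, Complex.ofReal_zero]
    exact fun h => Nat.ne_zero_of_mem_factoredNumbers h rfl
  · rw [LSeries.term_of_ne_zero hn, fZ]
    by_cases h : n ∈ Nat.factoredNumbers F
    · rw [if_pos h, Set.indicator_of_mem h, Complex.ofReal_cpow (by positivity), Complex.ofReal_natCast,
        Complex.ofReal_neg, Complex.cpow_neg, one_div]
    · rw [if_neg h, Set.indicator_of_notMem h, zero_div, Complex.ofReal_zero]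

theorem term_fA (F : Finset ℕ) (σ : ℝ) (n : ℕ) : LSeries.term (fA F) (σ : ℂ) n =
    (((Nat.factoredNumbers F).indicator (fun m : ℕ => (recDiv m : ℝ) * (m : ℝ) ^ (-σ)) n : ℝ) : ℂ) := by
  rcases eq_or_ne n 0 with rfl | hn
  · rw [LSeries.term_zero, Set.indicator_of_notMem, Complex.ofReal_zero]
    exact fun h => Nat.ne_zero_of_mem_factoredNumbers h rfl
  · rw [LSeries.term_of_ne_zero hn, fA]
    by_cases h : n ∈ Nat.factoredNumbers F
    · rw [if_pos h, Set.indicator_of_mem h, Complex.ofReal_mul, Complex.ofReal_cpow (by positivity),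
        Complex.ofReal_natCast, Complex.ofReal_natCast, Complex.ofReal_neg, Complex.cpow_neg, div_eq_mul_inv]
    · rw [if_neg h, Set.indicator_of_notMem h, zero_div, Complex.ofReal_zero]

theorem exists_ample {F : Finset ℕ} (hF : ∀ p ∈ F, p.Prime) {δ : ℝ} (hδ : 0 < δ)
    (hprod : 2 < ∏ p ∈ F, (1 - (p : ℝ) ^ (-(1 + 2 * δ)))⁻¹) :
    {n : ℕ | n ∈ Nat.factoredNumbers F ∧ (n : ℝ) ^ (1 + δ) < recDiv n}.Infinite := by
  intro hfin
  set σ : ℝ := 1 + 2 * δ with hσ
  have hσ0 : 0 < σ := by positivity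
  set Z : ℝ := ∏ p ∈ F, (1 - (p : ℝ) ^ (-σ))⁻¹ with hZdef
  have hZ : LSeriesHasSum (fZ F) (σ : ℂ) (Z : ℂ) := by
    have h := (hasSum_subtype_iff_indicator (f := fun m : ℕ => (m : ℝ) ^ (-σ))).1 (hasSum_factored hF hσ0)
    have h' := Complex.hasSum_ofReal.2 h
    have h2 : LSeries.term (fZ F) (σ : ℂ) = fun n =>
        (((Nat.factoredNumbers F).indicator (fun m : ℕ => (m : ℝ) ^ (-σ)) n : ℝ) : ℂ) :=
      funext (term_fZ F σ)
    rw [LSeriesHasSum, h2]
    exact h'
  have hA : LSeriesSummable (fA F) (σ : ℂ) := by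
    have h := ((hasSum_subtype_iff_indicator (f := fun m : ℕ => (m : ℝ) ^ (-δ))).1
      (hasSum_factored hF hδ)).summable
    refine Summable.of_norm_bounded_eventually h ?_
    filter_upwards [hfin.compl_mem_cofinite] with n hn
    rw [term_fA, Complex.norm_real]
    by_cases hm : n ∈ Nat.factoredNumbers F
    · rw [Set.indicator_of_mem hm, Set.indicator_of_mem hm]
      have hn0 : (0 : ℝ) < n := by exact_mod_cast Nat.pos_of_ne_zero (Nat.ne_zero_of_mem_factoredNumbers hm)
      have h1 : (recDiv n : ℝ) ≤ (n : ℝ) ^ (1 + δ) := by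
        by_contra hc
        exact hn ⟨hm, not_le.1 hc⟩
      rw [Real.norm_of_nonneg (by positivity)]
      calc (recDiv n : ℝ) * (n : ℝ) ^ (-σ) ≤ (n : ℝ) ^ (1 + δ) * (n : ℝ) ^ (-σ) := by gcongr
        _ = (n : ℝ) ^ (-δ) := by rw [← Real.rpow_add hn0]; congr 1; rw [hσ]; ring
    · rw [Set.indicator_of_notMem hm, Set.indicator_of_notMem hm, norm_zero]
  have hAs := hA.LSeriesHasSum
  have h1 : LSeriesHasSum (LSeries.convolution (fA F) (fZ F)) (σ : ℂ) (LSeries (fA F) σ * Z) :=
    hAs.convolution hZ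
  have h2 : LSeriesHasSum (LSeries.convolution (fA F) (fZ F)) (σ : ℂ) (2 * LSeries (fA F) σ - Z) := by
    have h3 := (hAs.smul 2).sub hZ
    refine (LSeriesHasSum_congr _ _ ?_).1 h3
    intro n hn
    rw [fA_conv F hn]
    rfl
  have h3 := h1.unique h2
  have h4 : 0 ≤ (LSeries (fA F) σ).re := by
    refine (Complex.hasSum_re hAs).nonneg fun n => ?_
    rw [term_fA, Complex.ofReal_re]
    exact Set.indicator_nonneg (fun m _ => by positivity) n
  have h5 := congrArg Complex.re h3
  simp only [Complex.mul_re, Complex.ofReal_re, Complex.ofReal_im, mul_zero, sub_zero, Complex.sub_re] at h5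
  norm_num at h5
  nlinarith

theorem one_add_sum_le (F : Finset ℕ) {x : ℕ → ℝ} (hx : ∀ p ∈ F, 0 ≤ x p) :
    1 + ∑ p ∈ F, x p ≤ ∏ p ∈ F, (1 + x p) := by
  classical
  induction F using Finset.induction_on with
  | empty => simp
  | insert q F hq ih =>
    rw [Finset.sum_insert hq, Finset.prod_insert hq]
    have h1 := ih fun p hp => hx p (Finset.mem_insert_of_mem hp)
    have h2 := hx q (Finset.mem_insert_self q F)
    have h3 : 0 ≤ ∑ p ∈ F, x p := Finset.sum_nonneg fun p hp => hx p (Finset.mem_insert_of_mem hp)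
    nlinarith [mul_le_mul_of_nonneg_left h1 h2, mul_nonneg h2 h3]

/-- There is a finite set of primes, none of them among the first `k`, with `∏ (1 - 1/p)⁻¹ > 2`. -/
theorem exists_finset (k : ℕ) : ∃ F : Finset ℕ, (∀ p ∈ F, p.Prime) ∧
    (∀ p ∈ F, ∀ i < k, p ≠ Nat.nth Nat.Prime i) ∧ 2 < ∏ p ∈ F, (1 - (p : ℝ) ^ (-(1 : ℝ)))⁻¹ := by
  classical
  set g : ℕ → ℝ := Set.indicator {p : ℕ | p.Prime} (fun n : ℕ => (1 : ℝ) / n) with hg
  have hg0 : ∀ n, 0 ≤ g n := fun n => Set.indicator_nonneg (fun m _ => by positivity) n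
  have htend := (not_summable_iff_tendsto_nat_atTop_of_nonneg hg0).1 not_summable_one_div_on_primes
  set N := Nat.nth Nat.Prime k with hN
  obtain ⟨M, hM⟩ := (htend.eventually_gt_atTop (1 + ∑ i ∈ range N, g i)).exists
  have hNM : N ≤ M := by
    by_contra hc
    have : ∑ i ∈ range M, g i ≤ ∑ i ∈ range N, g i :=
      Finset.sum_le_sum_of_subset_of_nonneg (Finset.range_mono (by omega)) fun i _ _ => hg0 i
    linarith
  refine ⟨(Finset.Ico N M).filter Nat.Prime, fun p hp => (Finset.mem_filter.1 hp).2, ?_, ?_⟩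
  · intro p hp i hi hpi
    have h1 : N ≤ p := (Finset.mem_Ico.1 (Finset.mem_filter.1 hp).1).1
    have h2 : Nat.nth Nat.Prime i < N := Nat.nth_strictMono Nat.infinite_setOfPred_prime hi
    omega
  · have hsum : 1 < ∑ p ∈ (Finset.Ico N M).filter Nat.Prime, (1 : ℝ) / p := by
      rw [Finset.sum_filter]
      have h1 : ∑ i ∈ Finset.Ico N M, g i = ∑ i ∈ range M, g i - ∑ i ∈ range N, g i :=
        Finset.sum_Ico_eq_sub g hNM
      have h2 : ∑ i ∈ Finset.Ico N M, g i = ∑ a ∈ Finset.Ico N M, if Nat.Prime a then (1 : ℝ) / a else 0 :=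
        Finset.sum_congr rfl fun i _ => by
          rw [hg]
          by_cases hi : Nat.Prime i
          · rw [Set.indicator_of_mem (by exact hi), if_pos hi]
          · rw [Set.indicator_of_notMem (by exact hi), if_neg hi]
      rw [← h2, h1]
      linarith
    have hprod : 1 + ∑ p ∈ (Finset.Ico N M).filter Nat.Prime, (1 : ℝ) / p ≤
        ∏ p ∈ (Finset.Ico N M).filter Nat.Prime, (1 + (1 : ℝ) / p) := by
      exact one_add_sum_le _ fun p _ => by positivity
    refine lt_of_lt_of_le (by linarith) (hprod.trans (Finset.prod_le_prod (fun p _ => by positivity) ?_))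
    intro p hp
    have hp1 : (1 : ℝ) < p := by exact_mod_cast (Finset.mem_filter.1 hp).2.one_lt
    rw [Real.rpow_neg_one, ← one_div, le_div_iff₀ (by rw [sub_pos]; exact inv_lt_one_of_one_lt₀ hp1), one_div]
    have : 0 ≤ (p : ℝ)⁻¹ := by positivity
    nlinarith

/-- For every `k` there are a `δ > 0` and infinitely many positive integers `n` which are divisible by none of
the first `k` primes and have more than `n ^ (1 + δ)` recursive divisors. -/
theorem result (k : ℕ) : ∃ δ : ℝ, 0 < δ ∧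
    {n : ℕ | 0 < n ∧ (∀ i < k, ¬ Nat.nth Nat.Prime i ∣ n) ∧ (n : ℝ) ^ (1 + δ) < recDiv n}.Infinite := by
  obtain ⟨F, hF, hFk, hprod⟩ := exists_finset k
  have hcont : ContinuousAt (fun x : ℝ => ∏ p ∈ F, (1 - (p : ℝ) ^ (-(1 + 2 * x)))⁻¹) 0 := by
    refine tendsto_finsetProd _ fun p hp => ?_
    have hp1 : (1 : ℝ) < p := by exact_mod_cast (hF p hp).one_lt
    have h1 : ContinuousAt (fun x : ℝ => (p : ℝ) ^ (-(1 + 2 * x))) 0 :=
      ContinuousAt.rpow continuousAt_const (by fun_prop) (Or.inl (by positivity))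
    refine (continuousAt_const.sub h1).inv₀ ?_
    have : (p : ℝ) ^ (-(1 + 2 * (0 : ℝ))) < 1 :=
      Real.rpow_lt_one_of_one_lt_of_neg hp1 (by norm_num)
    exact (sub_pos.2 this).ne'
  have hev : ∀ᶠ x : ℝ in nhds 0, 2 < ∏ p ∈ F, (1 - (p : ℝ) ^ (-(1 + 2 * x)))⁻¹ := by
    refine hcont.eventually_const_lt ?_
    simpa using hprod
  obtain ⟨ε, hε, hball⟩ := Metric.eventually_nhds_iff.1 hev
  refine ⟨ε / 2, by positivity, ?_⟩
  refine (exists_ample hF (half_pos hε) (hball ?_)).mono ?_
  · rw [dist_zero_right, Real.norm_of_nonneg (by positivity)]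
    linarith
  · rintro n ⟨hn, h2⟩
    refine ⟨Nat.pos_of_ne_zero (Nat.ne_zero_of_mem_factoredNumbers hn), fun i hi hdvd => ?_, h2⟩
    have hp := Nat.prime_nth_prime i
    exact hFk _ (Nat.mem_factoredNumbers'.1 hn _ hp hdvd) i hi rfl

end Pool.Agent.Results.MP_bbacab_nt.AmpleCoprime
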